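import Pool.Agent.helper6.LD.Defs

/-!
Growth of the Riemann zeta function to the right of `Re s = 1/8` (LD project, module G1) and the
lower bound to the right of `Re s = 2` (module G2).
-/

set_option autoImplicit false

open Complex Metric

namespace Pool.Agent.helper6.LD

/-- `c_n(s) = (1 - s) n^(-s) - (n+1)^(1-s) + n^(1-s)` with `n` replaced by `n+1`. -/
private noncomputable def h85_c (n : ℕ) (s : ℂ) : ℂ :=
  (1 - s) * ((n : ℂ) + 1) ^ (-s) - ((n : ℂ) + 2) ^ (1 - s) + ((n : ℂ) + 1) ^ (1 - s)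

private lemma h85_pow_sub (n : ℕ) {s : ℂ} (hs : 0 < s.re) {x : ℝ} (hx : (n : ℝ) + 1 ≤ x)
    (hx' : x ≤ (n : ℝ) + 2) :
    ‖(x : ℂ) ^ (-s) - (((n : ℝ) + 1 : ℝ) : ℂ) ^ (-s)‖ ≤
      ‖s‖ * ((n : ℝ) + 1) ^ (-s.re - 1) := by
  have hn : (0 : ℝ) < (n : ℝ) + 1 := by positivity
  have key := (convex_Icc ((n : ℝ) + 1) ((n : ℝ) + 2)).norm_image_sub_le_of_norm_hasDerivWithin_le
    (f := fun y : ℝ => (y : ℂ) ^ (-s)) (f' := fun y : ℝ => (-s) * (y : ℂ) ^ (-s - 1))
    (C := ‖s‖ * ((n : ℝ) + 1) ^ (-s.re - 1)) (x := (n : ℝ) + 1) (y := x)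
    (by
      intro y hy
      have hy0 : y ≠ 0 := (lt_of_lt_of_le hn hy.1).ne'
      exact (hasDerivAt_ofReal_cpow_const hy0 (by
        intro h
        have := congrArg Complex.re h
        simp at this
        linarith) |>.congr_deriv (by ring)).hasDerivWithinAt)
    (by
      intro y hy
      have hy0 : 0 < y := lt_of_lt_of_le hn hy.1
      rw [norm_mul, norm_neg, Complex.norm_cpow_eq_rpow_re_of_pos hy0]
      refine mul_le_mul_of_nonneg_left ?_ (norm_nonneg _)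
      simp only [Complex.sub_re, Complex.neg_re, Complex.one_re]
      exact Real.rpow_le_rpow_of_nonpos hn hy.1 (by linarith))
    ⟨le_rfl, by linarith⟩ ⟨hx, hx'⟩
  refine key.trans ?_
  have h1 : ‖x - ((n : ℝ) + 1)‖ ≤ 1 := by
    rw [Real.norm_eq_abs, abs_le]; constructor <;> linarith
  have h0 : 0 ≤ ‖s‖ * ((n : ℝ) + 1) ^ (-s.re - 1) := by positivity
  calc _ ≤ ‖s‖ * ((n : ℝ) + 1) ^ (-s.re - 1) * 1 := mul_le_mul_of_nonneg_left h1 h0
    _ = _ := mul_one _

private lemma h85_c_bound (n : ℕ) {s : ℂ} (hs : 0 < s.re) :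
    ‖h85_c n s‖ ≤ ‖1 - s‖ * ‖s‖ * ((n : ℝ) + 1) ^ (-s.re - 1) := by
  have hn : (0 : ℝ) < (n : ℝ) + 1 := by positivity
  by_cases h1 : s = 1
  · subst h1
    simp [h85_c]
  have hs1 : (1 : ℂ) - s ≠ 0 := sub_ne_zero.mpr (Ne.symm h1)
  have key := (convex_Icc ((n : ℝ) + 1) ((n : ℝ) + 2)).norm_image_sub_le_of_norm_hasDerivWithin_le
    (f := fun y : ℝ => (1 - s) * (((n : ℝ) + 1 : ℝ) : ℂ) ^ (-s) * (y : ℂ) - (y : ℂ) ^ (1 - s))
    (f' := fun y : ℝ => (1 - s) * (((n : ℝ) + 1 : ℝ) : ℂ) ^ (-s) - (1 - s) * (y : ℂ) ^ (-s))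
    (C := ‖1 - s‖ * ‖s‖ * ((n : ℝ) + 1) ^ (-s.re - 1)) (x := (n : ℝ) + 1) (y := (n : ℝ) + 2)
    (by
      intro y hy
      have hy0 : y ≠ 0 := (lt_of_lt_of_le hn hy.1).ne'
      have e1 : HasDerivAt (fun y : ℝ => (1 - s) * (((n : ℝ) + 1 : ℝ) : ℂ) ^ (-s) * (y : ℂ))
          ((1 - s) * (((n : ℝ) + 1 : ℝ) : ℂ) ^ (-s)) y := by
        simpa using (Complex.ofRealCLM.hasDerivAt (x := y)).const_mul
          ((1 - s) * (((n : ℝ) + 1 : ℝ) : ℂ) ^ (-s))
      have e2 := hasDerivAt_ofReal_cpow_const hy0 hs1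
      exact ((e1.sub e2).congr_deriv (by
        rw [show (1 : ℂ) - s - 1 = -s by ring])).hasDerivWithinAt)
    (by
      intro y hy
      rw [← mul_sub, norm_mul, mul_assoc]
      refine mul_le_mul_of_nonneg_left ?_ (norm_nonneg _)
      rw [norm_sub_rev]
      exact h85_pow_sub n hs hy.1 hy.2)
    ⟨le_rfl, by linarith⟩ ⟨by linarith, le_rfl⟩
  have e : h85_c n s = ((1 - s) * (((n : ℝ) + 1 : ℝ) : ℂ) ^ (-s) * (((n : ℝ) + 2 : ℝ) : ℂ) -
      (((n : ℝ) + 2 : ℝ) : ℂ) ^ (1 - s)) - ((1 - s) * (((n : ℝ) + 1 : ℝ) : ℂ) ^ (-s) *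
      (((n : ℝ) + 1 : ℝ) : ℂ) - (((n : ℝ) + 1 : ℝ) : ℂ) ^ (1 - s)) := by
    unfold h85_c
    push_cast
    ring
  rw [e]
  refine key.trans (le_of_eq ?_)
  have : ‖((n : ℝ) + 2) - ((n : ℝ) + 1)‖ = 1 := by
    rw [show ((n : ℝ) + 2) - ((n : ℝ) + 1) = 1 by ring]; simp
  rw [this, mul_one]

private lemma h85_summable {a : ℝ} (ha : 0 < a) :
    Summable (fun n : ℕ => ((n : ℝ) + 1) ^ (-a - 1)) := by
  have h := (summable_nat_add_iff (f := fun n : ℕ => (n : ℝ) ^ (-a - 1)) 1).mpr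
    (Real.summable_nat_rpow.mpr (by linarith))
  refine h.congr fun n => ?_
  push_cast
  rfl

private lemma h85_diff (n : ℕ) : Differentiable ℂ (h85_c n) := by
  have h1 : ((n : ℂ) + 1) ≠ 0 := by exact_mod_cast Nat.succ_ne_zero n
  have h2 : ((n : ℂ) + 2) ≠ 0 := by exact_mod_cast Nat.succ_ne_zero (n + 1)
  unfold h85_c
  intro s
  refine ((((differentiableAt_const _).sub differentiableAt_id).mul ?_).sub ?_).add ?_
  · exact (differentiableAt_id.neg).const_cpow (Or.inl h1)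
  · exact ((differentiableAt_const _).sub differentiableAt_id).const_cpow (Or.inl h2)
  · exact ((differentiableAt_const _).sub differentiableAt_id).const_cpow (Or.inl h1)

private lemma h85_partial (N : ℕ) (s : ℂ) :
    ∑ n ∈ Finset.range N, h85_c n s = (1 - s) * ∑ n ∈ Finset.range N, ((n : ℂ) + 1) ^ (-s) -
      ((N : ℂ) + 1) ^ (1 - s) + 1 := by
  induction N with
  | zero => simp
  | succ N ih =>
    rw [Finset.sum_range_succ, Finset.sum_range_succ, ih, h85_c]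
    push_cast
    rw [show (N : ℂ) + 1 + 1 = (N : ℂ) + 2 by ring]
    ring

private lemma h85_zeta {s : ℂ} (hs : 1 < s.re) :
    HasSum (fun n : ℕ => ((n : ℂ) + 1) ^ (-s)) (riemannZeta s) := by
  rw [zeta_eq_tsum_one_div_nat_add_one_cpow hs]
  have h : Summable (fun n : ℕ => 1 / ((n : ℂ) + 1) ^ s) := by
    have := (summable_nat_add_iff (f := fun n : ℕ => 1 / (n : ℂ) ^ s) 1).mpr
      (Complex.summable_one_div_nat_cpow.mpr hs)
    refine this.congr fun n => ?_
    push_cast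
    rfl
  refine h.hasSum.congr_fun ?_
  intro n
  rw [Complex.cpow_neg, one_div]

private lemma h85_tsum {s : ℂ} (hs : 1 < s.re) :
    ∑' n : ℕ, h85_c n s = (1 - s) * riemannZeta s + 1 := by
  have hsum : Summable (fun n : ℕ => h85_c n s) := by
    refine Summable.of_norm_bounded ((h85_summable (a := s.re) (by linarith)).mul_left
      (‖1 - s‖ * ‖s‖)) fun n => h85_c_bound n (by linarith)
  have h1 := hsum.hasSum.tendsto_sum_nat
  have h2 : Filter.Tendsto (fun N : ℕ => (1 - s) * ∑ n ∈ Finset.range N, ((n : ℂ) + 1) ^ (-s) -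
      ((N : ℂ) + 1) ^ (1 - s) + 1) Filter.atTop (nhds ((1 - s) * riemannZeta s - 0 + 1)) := by
    refine ((((h85_zeta hs).tendsto_sum_nat).const_mul (1 - s)).sub ?_).add_const 1
    rw [tendsto_zero_iff_norm_tendsto_zero]
    have e : (fun N : ℕ => ‖((N : ℂ) + 1) ^ (1 - s)‖) =
        fun N : ℕ => ((N : ℝ) + 1) ^ (-(s.re - 1)) := by
      funext N
      have hN : (0 : ℝ) < (N : ℝ) + 1 := by positivity
      rw [show ((N : ℂ) + 1) = (((N : ℝ) + 1 : ℝ) : ℂ) by push_cast; rfl,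
        Complex.norm_cpow_eq_rpow_re_of_pos hN]
      congr 1
      simp
    rw [e]
    refine (tendsto_rpow_neg_atTop (y := s.re - 1) (by linarith)).comp ?_
    exact Filter.tendsto_atTop_add_const_right _ _ tendsto_natCast_atTop_atTop
  simp only [h85_partial] at h1
  rw [tendsto_nhds_unique h1 h2, sub_zero]

private lemma h85_cont {s : ℂ} (hs : 1 / 8 ≤ s.re) :
    ∑' n : ℕ, h85_c n s = 1 - riemannZeta₁ s := by
  set R : ℝ := ‖s‖ + 3 with hR
  set U : Set ℂ := {z : ℂ | 1 / 16 < z.re} ∩ ball 0 R with hU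
  have hUo : IsOpen U := (isOpen_lt continuous_const Complex.continuous_re).inter isOpen_ball
  have hUc : Convex ℝ U := (convex_halfSpace_re_gt (1 / 16)).inter (convex_ball 0 R)
  have hsU : s ∈ U := ⟨by simp only [Set.mem_ofPred_eq]; linarith, by
    rw [mem_ball_zero_iff, hR]; linarith⟩
  have h2U : (2 : ℂ) ∈ U := ⟨by simp only [Set.mem_ofPred_eq]; norm_num, by
    rw [mem_ball_zero_iff, hR]
    have : ‖(2 : ℂ)‖ = 2 := by simp
    rw [this]
    have := norm_nonneg s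
    linarith⟩
  have hF : DifferentiableOn ℂ (fun z => ∑' n : ℕ, h85_c n z) U := by
    refine Complex.differentiableOn_tsum_of_summable_norm
      (u := fun n : ℕ => ((1 + R) * R) * ((n : ℝ) + 1) ^ (-(1 / 16 : ℝ) - 1))
      ((h85_summable (by norm_num)).mul_left _)
      (fun n => (h85_diff n).differentiableOn) hUo ?_
    intro n z hz
    have hz1 : 1 / 16 < z.re := hz.1
    have hz2 : ‖z‖ < R := by simpa using hz.2
    refine (h85_c_bound n (by linarith)).trans ?_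
    have hR0 : 0 ≤ R := by positivity
    refine mul_le_mul (mul_le_mul ?_ hz2.le (norm_nonneg _) (by positivity)) ?_ (by positivity)
      (by positivity)
    · calc ‖1 - z‖ ≤ ‖(1 : ℂ)‖ + ‖z‖ := norm_sub_le _ _
        _ ≤ 1 + R := by rw [norm_one]; linarith
    · exact Real.rpow_le_rpow_of_exponent_le (by
        have : (0 : ℝ) ≤ n := by positivity
        linarith) (by linarith)
  have hG : DifferentiableOn ℂ (fun z => 1 - riemannZeta₁ z) U :=
    ((differentiable_const 1).sub differentiable_riemannZeta₁).differentiableOn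
  have hEq : Set.EqOn (fun z => ∑' n : ℕ, h85_c n z) (fun z => 1 - riemannZeta₁ z) U := by
    refine (hF.analyticOnNhd hUo).eqOn_of_preconnected_of_eventuallyEq (hG.analyticOnNhd hUo)
      hUc.isPreconnected h2U ?_
    have : {z : ℂ | 1 < z.re} ∈ nhds (2 : ℂ) :=
      (isOpen_lt continuous_const Complex.continuous_re).mem_nhds (by
        simp only [Set.mem_ofPred_eq]; norm_num)
    filter_upwards [this] with z hz
    have hz1 : z ≠ 1 := by
      intro h
      rw [h] at hz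
      simp at hz
    rw [h85_tsum hz, riemannZeta_eq_inv_sub_mul hz1]
    have : z - 1 ≠ 0 := sub_ne_zero.mpr hz1
    field_simp
    ring
  exact hEq hsU

/-- growth -/
theorem zeta_growth : ∃ C : ℝ, 0 < C ∧ ∀ s : ℂ, 1 / 8 ≤ s.re → 1 ≤ |s.im| →
    ‖riemannZeta s‖ ≤ C * ‖s‖ := by
  set S : ℝ := ∑' n : ℕ, ((n : ℝ) + 1) ^ (-(1 / 8 : ℝ) - 1) with hS
  have hSs := h85_summable (a := 1 / 8) (by norm_num)
  have hS0 : 0 ≤ S := tsum_nonneg fun n => by positivity
  refine ⟨1 + S, by linarith, fun s hs him => ?_⟩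
  have hs1 : s ≠ 1 := by
    intro h
    rw [h] at him
    simp at him
    linarith
  have hn1 : 1 ≤ ‖s - 1‖ := by
    have := Complex.abs_im_le_norm (s - 1)
    simp at this
    linarith
  have hn0 : 1 ≤ ‖s‖ := him.trans (Complex.abs_im_le_norm s)
  have hb : ‖∑' n : ℕ, h85_c n s‖ ≤ ‖1 - s‖ * ‖s‖ * S := by
    rw [hS, ← tsum_mul_left]
    refine tsum_of_norm_bounded (hSs.mul_left _).hasSum fun n => ?_
    refine (h85_c_bound n (by linarith)).trans ?_
    refine mul_le_mul_of_nonneg_left ?_ (by positivity)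
    exact Real.rpow_le_rpow_of_exponent_le (by
        have : (0 : ℝ) ≤ n := by positivity
        linarith) (by linarith)
  rw [h85_cont hs] at hb
  have hz : ‖riemannZeta₁ s‖ ≤ 1 + ‖s - 1‖ * ‖s‖ * S := by
    have : riemannZeta₁ s = 1 - (1 - riemannZeta₁ s) := by ring
    rw [this]
    refine (norm_sub_le _ _).trans ?_
    rw [norm_one, norm_sub_rev s 1]
    linarith
  rw [riemannZeta_eq_inv_sub_mul hs1, norm_mul, norm_inv]
  have hpos : 0 < ‖s - 1‖ := by linarith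
  rw [inv_mul_le_iff₀ hpos]
  refine hz.trans ?_
  have h1 : 1 ≤ ‖s - 1‖ * ‖s‖ := by nlinarith
  nlinarith

/-- lower bound -/
theorem zeta_lower {s : ℂ} (hs : 2 ≤ s.re) : 1 / 4 ≤ ‖riemannZeta s‖ := by
  have h := h85_zeta (s := s) (by linarith)
  have h1 : HasSum (fun n : ℕ => (((n + 1 : ℕ) : ℂ) + 1) ^ (-s)) (riemannZeta s - 1) := by
    have := (hasSum_nat_add_iff' (f := fun n : ℕ => ((n : ℂ) + 1) ^ (-s)) 1).mpr h
    simpa using this
  have hz2 : HasSum (fun n : ℕ => 1 / ((n : ℝ)) ^ 2) (Real.pi ^ 2 / 6) := hasSum_zeta_two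
  have h2 : HasSum (fun n : ℕ => 1 / (((n + 2 : ℕ) : ℝ)) ^ 2) (Real.pi ^ 2 / 6 - 1) := by
    have := (hasSum_nat_add_iff' (f := fun n : ℕ => 1 / (n : ℝ) ^ 2) 2).mpr hz2
    simpa [Finset.sum_range_succ] using this
  have hle : ‖riemannZeta s - 1‖ ≤ Real.pi ^ 2 / 6 - 1 := by
    rw [← h1.tsum_eq]
    refine tsum_of_norm_bounded h2 fun n => ?_
    have hn : (0 : ℝ) < ((n + 2 : ℕ) : ℝ) := by positivity
    rw [show (((n + 1 : ℕ) : ℂ) + 1) = ((((n + 2 : ℕ) : ℝ)) : ℂ) by push_cast; ring,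
      Complex.norm_cpow_eq_rpow_re_of_pos hn, Complex.neg_re, one_div,
      Real.rpow_neg hn.le]
    refine inv_anti₀ (by positivity) ?_
    rw [← Real.rpow_natCast]
    refine Real.rpow_le_rpow_of_exponent_le ?_ (by exact_mod_cast hs)
    push_cast
    have : (0 : ℝ) ≤ n := by positivity
    linarith
  have hpi : Real.pi ^ 2 / 6 - 1 ≤ 3 / 4 := by
    have h3 := Real.pi_lt_d2
    have h4 := Real.pi_pos
    nlinarith
  have : ‖(1 : ℂ)‖ ≤ ‖riemannZeta s‖ + ‖riemannZeta s - 1‖ := by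
    have e : (1 : ℂ) = riemannZeta s - (riemannZeta s - 1) := by ring
    calc ‖(1 : ℂ)‖ = ‖riemannZeta s - (riemannZeta s - 1)‖ := by rw [← e]
      _ ≤ _ := norm_sub_le _ _
  rw [norm_one] at this
  linarith

end Pool.Agent.helper6.LD
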